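import Pool.Agent.Helper23.DM.Fin
set_option autoImplicit false
open Polynomial
namespace Pool.Agent.Results.MP_c8e395_nt.DegreeThree
open Pool.Agent.Helper23.DM.Gen

/-- Let `k` be a finite field with `q` elements, `F = k(T)` (`RatFunc k`), `Ω` a separable closure
of `F(j)` (`RatFunc (RatFunc k)`) and `n ∈ k[T]` any polynomial of degree `3`. There is a point `lam`
of `Ω` whose annihilator, for the Drinfeld module `φ` with `j`-invariant `j`, is `(n)`; and for every
such `lam`, if `K` is the function field of `X_0(n)` (the subfield of `Ω` fixed by the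
automorphisms of `Ω` over `F(j)` which preserve the submodule generated by `lam`):
* the coordinate ring of `Y_0(n)`, that is the integral closure of `F[j]` in `K`, is a principal
ideal domain;
* for every divisor `D` of `K / F` there is `f ≠ 0` in `K` whose order is `D V` at each place `V` of
`K / F` which is not a cusp, so that `D` is linearly equivalent to a divisor supported on the
cusps. -/
theorem result (k : Type) [Field k] [Fintype k] (Ω : Type) [Field Ω]
    [Algebra (RatFunc (RatFunc k)) Ω] [IsSepClosure (RatFunc (RatFunc k)) Ω]
    (n : k[X]) (hn : n.natDegree = 3) :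
    (∃ lam : Ω, IsGenerator n lam) ∧
    ∀ lam : Ω, IsGenerator n lam →
      ∀ (K : Type) [Field K] [Algebra (RatFunc (RatFunc k)) K]
        (ι : K →ₐ[RatFunc (RatFunc k)] Ω), IsFunField lam ι →
      (∃ B : Subring K, IsCoord k B ∧ IsPrincipalIdealRing B) ∧
      ∀ D : ValuationSubring K →₀ ℤ, ∃ f : K, f ≠ 0 ∧
        ∀ V : ValuationSubring K, IsPlc k V → ¬ IsCusp k V → HasOrder V f (D V) :=
  final Ω n hn

end Pool.Agent.Results.MP_c8e395_nt.DegreeThree
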